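import Mathlib

namespace Pool.Agent.Results.MP_5675d3_gt.NoLoweringRank

open Set Filter Topology Ordinal Cardinal TopologicalSpace

/-- A Noetherian family of sets: nonempty, without the empty set as a member, and with no infinite
strictly increasing chain of members. -/
def Noetherian {X : Type} (𝒜 : Set (Set X)) : Prop :=
  𝒜.Nonempty ∧ ∅ ∉ 𝒜 ∧ ¬ ∃ A : ℕ → Set X, (∀ n, A n ∈ 𝒜) ∧ ∀ n, A n ⊂ A (n + 1)

/-- A Noetherian base. -/
def NoetherianBase {X : Type} [TopologicalSpace X] (𝒜 : Set (Set X)) : Prop :=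
  IsTopologicalBasis 𝒜 ∧ Noetherian 𝒜

/-- The layers of a family, by transfinite recursion: the layer with index `i` is the set of
maximal elements of `𝒜` minus the union of all earlier layers. -/
def layer {X : Type} (𝒜 : Set (Set X)) (i : Ordinal.{0}) : Set (Set X) :=
  {A | Maximal (fun B => B ∈ 𝒜 ∧ ∀ j, ∀ _ : j < i, B ∉ layer 𝒜 j) A}
termination_by i

/-- The rank of a family: the least ordinal `α` such that `𝒜` is the union of the layers with
index smaller than `α`. -/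
noncomputable def rank {X : Type} (𝒜 : Set (Set X)) : Ordinal.{0} :=
  sInf {α | 𝒜 = {A | ∃ i < α, A ∈ layer 𝒜 i}}

section general

variable {X : Type} {𝒜 : Set (Set X)}

lemma mem_layer {i : Ordinal.{0}} {A : Set X} :
    A ∈ layer 𝒜 i ↔ Maximal (fun B => B ∈ 𝒜 ∧ ∀ j, ∀ _ : j < i, B ∉ layer 𝒜 j) A := by
  rw [layer]; rfl

lemma layer_subset (i : Ordinal.{0}) : layer 𝒜 i ⊆ 𝒜 := fun _ hA => (mem_layer.mp hA).prop.1

lemma layer_unique {i j : Ordinal.{0}} {A : Set X} (hi : A ∈ layer 𝒜 i) (hj : A ∈ layer 𝒜 j) :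
    i = j := by
  rcases lt_trichotomy i j with h | h | h
  · exact ((mem_layer.mp hj).prop.2 i h hi).elim
  · exact h
  · exact ((mem_layer.mp hi).prop.2 j h hj).elim

lemma layer_superset {i : Ordinal.{0}} {A A' : Set X} (hA : A ∈ layer 𝒜 i) (hA' : A' ∈ 𝒜)
    (h : A ⊂ A') : ∃ j < i, A' ∈ layer 𝒜 j := by
  by_contra hcon
  push Not at hcon
  have := (mem_layer.mp hA).le_of_ge (y := A') ⟨hA', hcon⟩ h.subset
  exact h.not_subset this

lemma exists_maximal (h𝒜 : Noetherian 𝒜) {𝒞 : Set (Set X)} (h𝒞 : 𝒞 ⊆ 𝒜) (hne : 𝒞.Nonempty) :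
    ∃ A, Maximal (· ∈ 𝒞) A := by
  by_contra hcon
  push Not at hcon
  have h1 : ∀ A : 𝒞, ∃ B : 𝒞, (A : Set X) ⊂ B := by
    rintro ⟨A, hA⟩
    have h2 := hcon A
    rw [Maximal] at h2
    push Not at h2
    obtain ⟨B, hB, hAB, hBA⟩ := h2 hA
    exact ⟨⟨B, hB⟩, hAB, hBA⟩
  choose s hs using h1
  obtain ⟨A0, hA0⟩ := hne
  apply h𝒜.2.2
  refine ⟨fun n => ((s^[n] ⟨A0, hA0⟩ : 𝒞) : Set X), fun n => h𝒞 (s^[n] ⟨A0, hA0⟩ : 𝒞).2, ?_⟩
  intro n
  show ((s^[n] ⟨A0, hA0⟩ : 𝒞) : Set X) ⊂ ((s^[n + 1] ⟨A0, hA0⟩ : 𝒞) : Set X)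
  rw [Function.iterate_succ_apply']
  exact hs _

lemma layer_nonempty (h𝒜 : Noetherian 𝒜) {i : Ordinal.{0}}
    (h : 𝒜 ≠ {A | ∃ j < i, A ∈ layer 𝒜 j}) : (layer 𝒜 i).Nonempty := by
  have hne : {B | B ∈ 𝒜 ∧ ∀ j, ∀ _ : j < i, B ∉ layer 𝒜 j}.Nonempty := by
    by_contra hc
    rw [not_nonempty_iff_eq_empty] at hc
    apply h
    apply Subset.antisymm
    · intro A hA
      by_contra hA'
      have : A ∈ {B | B ∈ 𝒜 ∧ ∀ j, ∀ _ : j < i, B ∉ layer 𝒜 j} :=
        ⟨hA, fun j hj hAj => hA' ⟨j, hj, hAj⟩⟩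
      rw [hc] at this
      exact this
    · rintro A ⟨j, _, hj⟩
      exact layer_subset j hj
  obtain ⟨A, hA⟩ := exists_maximal h𝒜 (fun B hB => hB.1) hne
  exact ⟨A, mem_layer.mpr hA⟩

lemma rank_set_nonempty (h𝒜 : Noetherian 𝒜) :
    {α : Ordinal.{0} | 𝒜 = {A | ∃ i < α, A ∈ layer 𝒜 i}}.Nonempty := by
  by_contra hc
  rw [not_nonempty_iff_eq_empty, eq_empty_iff_forall_notMem] at hc
  have h1 : ∀ i : Ordinal.{0}, (layer 𝒜 i).Nonempty := fun i => layer_nonempty h𝒜 (hc i)
  choose A hA using h1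
  refine not_injective_of_ordinal A ?_
  intro i j hij
  have := hA j
  rw [← hij] at this
  exact layer_unique (hA i) this

lemma rank_spec (h𝒜 : Noetherian 𝒜) : 𝒜 = {A | ∃ i < rank 𝒜, A ∈ layer 𝒜 i} :=
  csInf_mem (rank_set_nonempty h𝒜)

lemma card_rank_le (h𝒜 : Noetherian 𝒜) : (rank 𝒜).card ≤ #𝒜 := by
  have h1 : ∀ i : Iio (rank 𝒜), (layer 𝒜 i).Nonempty := by
    rintro ⟨i, hi⟩
    apply layer_nonempty h𝒜
    intro hc
    exact notMem_of_lt_csInf' (s := {α : Ordinal.{0} | 𝒜 = {A | ∃ i < α, A ∈ layer 𝒜 i}}) hi hc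
  choose A hA using h1
  let f : Iio (rank 𝒜) → 𝒜 := fun i => ⟨A i, layer_subset _ (hA i)⟩
  have hf : Function.Injective f := by
    intro i j hij
    have h2 : A i = A j := congrArg Subtype.val hij
    have := hA j
    rw [← h2] at this
    exact Subtype.ext (layer_unique (hA i) this)
  have := Cardinal.mk_le_of_injective (Function.Injective.comp (Equiv.ulift.{1, 0}.symm.injective) hf)
  rw [Cardinal.mk_Iio_ordinal, Cardinal.mk_uLift] at this
  exact Cardinal.lift_le.mp this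

end general

/-- A well ordered set of order type `ω₁`. -/
abbrev W : Type := (ω₁ : Ordinal.{0}).ToType

/-- The underlying set of the space. -/
abbrev X : Type := W ⊕ ℕ

/-- The index of a point. -/
noncomputable def idx : X → Ordinal.{0}
  | Sum.inl w => typein (α := W) (· < ·) w
  | Sum.inr n => ω₁ + n

lemma idx_inl_lt (w : W) : idx (Sum.inl w) < ω₁ := by
  have := typein_lt_type (α := W) (· < ·) w
  rw [Ordinal.type_toType] at this
  exact this

lemma idx_injective : Function.Injective idx := by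
  rintro (a | a) (b | b) h
  · exact congrArg Sum.inl (typein_injective (α := W) (· < ·) h)
  · have h1 := idx_inl_lt a
    rw [h] at h1
    exact absurd h1 (not_lt.mpr le_self_add)
  · have h1 := idx_inl_lt b
    rw [← h] at h1
    exact absurd h1 (not_lt.mpr le_self_add)
  · have h1 : (ω₁ : Ordinal.{0}) + a = ω₁ + b := h
    rw [add_right_inj] at h1
    exact congrArg Sum.inr (by exact_mod_cast h1)

lemma exists_code : ∃ c : W → (ℕ → Bool), Function.Injective c := by
  have h1 : #W ≤ #(ℕ → Bool) := by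
    rw [Cardinal.mk_toType, card_omega]
    have : #(ℕ → Bool) = 𝔠 := by simp
    rw [this]
    exact aleph_one_le_continuum
  obtain ⟨e⟩ := h1
  exact ⟨e, e.injective⟩

/-- Codes of points in the Cantor set. -/
noncomputable def code : W → (ℕ → Bool) := exists_code.choose

lemma code_injective : Function.Injective code := exists_code.choose_spec

/-- The position of a point in the Cantor set. -/
noncomputable def pos : X → (ℕ → Bool)
  | Sum.inl w => fun i => if Even i then code w (i / 2) else true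
  | Sum.inr n => fun i => n.testBit i

lemma pos_injective : Function.Injective pos := by
  have hne : ∀ (w : W) (n : ℕ), pos (Sum.inl w) ≠ pos (Sum.inr n) := by
    intro w n h
    have h1 := congrFun h (2 * n + 1)
    have h2 : ¬ Even (2 * n + 1) := by
      rw [Nat.not_even_iff_odd]; exact odd_two_mul_add_one n
    have h3 : n.testBit (2 * n + 1) = false := by
      apply Nat.testBit_lt_two_pow
      calc n < 2 ^ n := Nat.lt_two_pow_self
        _ ≤ 2 ^ (2 * n + 1) := Nat.pow_le_pow_right (by norm_num) (by omega)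
    simp only [pos, h2, if_false, h3] at h1
    exact Bool.noConfusion h1
  rintro (a | a) (b | b) h
  · have : code a = code b := by
      funext i
      have h1 := congrFun h (2 * i)
      have h2 : 2 * i / 2 = i := by omega
      simpa [pos, h2] using h1
    exact congrArg Sum.inl (code_injective this)
  · exact absurd h (hne a b)
  · exact absurd h.symm (hne b a)
  · exact congrArg Sum.inr (Nat.eq_of_testBit_eq (fun i => congrFun h i))

/-- The basic sets. -/
def B (x : X) (k : ℕ) : Set X := {y | idx x ≤ idx y ∧ ∀ i < k, pos y i = pos x i}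

/-- The base. -/
def Base : Set (Set X) := {A | ∃ x k, A = B x k}

lemma mem_B_self (x : X) (k : ℕ) : x ∈ B x k := ⟨le_rfl, fun _ _ => rfl⟩

lemma B_subset {x y : X} {k m : ℕ} (h : y ∈ B x k) (hkm : k ≤ m) : B y m ⊆ B x k := by
  rintro z ⟨h1, h2⟩
  exact ⟨h.1.trans h1, fun i hi => (h2 i (by omega)).trans (h.2 i hi)⟩

@[instance_reducible] def top : TopologicalSpace X := generateFrom Base

lemma base_isBasis : @IsTopologicalBasis X top Base := by
  refine @IsTopologicalBasis.mk X top Base ?_ ?_ rfl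
  · rintro _ ⟨x, k, rfl⟩ _ ⟨x', k', rfl⟩ y ⟨hy, hy'⟩
    exact ⟨B y (max k k'), ⟨y, _, rfl⟩, mem_B_self _ _,
      subset_inter (B_subset hy (le_max_left _ _)) (B_subset hy' (le_max_right _ _))⟩
  · rw [eq_univ_iff_forall]
    intro x
    exact ⟨B x 0, ⟨x, 0, rfl⟩, mem_B_self _ _⟩

lemma t2 : @T2Space X top := by
  refine @T2Space.mk X top ?_
  intro x y hxy
  have h1 : pos x ≠ pos y := fun h => hxy (pos_injective h)
  obtain ⟨i, hi⟩ := Function.ne_iff.mp h1
  refine ⟨B x (i + 1), B y (i + 1), isOpen_generateFrom_of_mem ⟨x, _, rfl⟩,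
    isOpen_generateFrom_of_mem ⟨y, _, rfl⟩, mem_B_self _ _, mem_B_self _ _, ?_⟩
  rw [Set.disjoint_left]
  intro z hz hz'
  exact hi ((hz.2 i (by omega)).symm.trans (hz'.2 i (by omega)))

lemma B_ssubset {x x' : X} {k k' : ℕ} (h : B x k ⊂ B x' k') :
    idx x' < idx x ∨ (idx x' = idx x ∧ k' < k) := by
  have h1 : x ∈ B x' k' := h.subset (mem_B_self _ _)
  rcases h1.1.lt_or_eq with h2 | h2
  · exact Or.inl h2
  · refine Or.inr ⟨h2, ?_⟩
    have h3 : x' = x := idx_injective h2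
    subst h3
    by_contra hc
    exact h.not_subset (B_subset (mem_B_self _ _) (not_lt.mp hc))

lemma noetherian_of_subset {𝒜 : Set (Set X)} (h : 𝒜 ⊆ Base) (hne : 𝒜.Nonempty) :
    Noetherian 𝒜 := by
  refine ⟨hne, ?_, ?_⟩
  · intro hc
    obtain ⟨x, k, hx⟩ := h hc
    have := mem_B_self x k
    rw [← hx] at this
    exact this
  · rintro ⟨A, hA1, hA2⟩
    choose x k hxk using fun n => h (hA1 n)
    have hwf : WellFounded (Prod.Lex (· < · : Ordinal.{0} → Ordinal.{0} → Prop)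
        (· < · : ℕ → ℕ → Prop)) := WellFounded.prod_lex wellFounded_lt wellFounded_lt
    apply (RelEmbedding.wellFounded_iff_isEmpty.mp hwf).false
    refine RelEmbedding.natGT (fun n => (idx (x n), k n)) ?_
    intro n
    have h1 := hA2 n
    rw [hxk n, hxk (n + 1)] at h1
    rcases B_ssubset h1 with h2 | ⟨h2, h3⟩
    · exact Prod.Lex.left _ _ h2
    · rw [← h2]
      exact Prod.Lex.right _ h3

lemma base_card : #Base ≤ ℵ₁ := by
  have h1 : Function.Surjective (fun p : X × ℕ => (⟨B p.1 p.2, p.1, p.2, rfl⟩ : Base)) := by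
    rintro ⟨_, x, k, rfl⟩
    exact ⟨(x, k), rfl⟩
  refine (Cardinal.mk_le_of_surjective h1).trans ?_
  have h2 : #W = ℵ₁ := by rw [Cardinal.mk_toType, card_omega]
  have h3 : ℵ₀ ≤ ℵ₁ := aleph0_le_aleph 1
  simp only [mk_prod, Cardinal.lift_uzero, mk_sum, mk_nat, h2]
  rw [Cardinal.add_eq_left h3 h3, Cardinal.mul_eq_left h3 h3 aleph0_ne_zero]

lemma exists_tail (s : ℕ → Bool) (k : ℕ) : ∃ n : ℕ, ∀ i < k, pos (Sum.inr n) i = s i := by
  refine ⟨Nat.ofBits (fun i : Fin k => s i), fun i hi => ?_⟩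
  show (Nat.ofBits (fun i : Fin k => s i)).testBit i = s i
  rw [Nat.testBit_ofBits_lt _ _ hi]

lemma rank_lower {𝒜 : Set (Set X)} (h : 𝒜 ⊆ Base) (hb : @IsTopologicalBasis X top 𝒜)
    (hN : Noetherian 𝒜) : ω₁ < rank 𝒜 := by
  letI := top
  -- forced members of the base
  have h1 : ∀ w : W, ∃ k, B (Sum.inl w) k ∈ 𝒜 := by
    intro w
    have hop : IsOpen (B (Sum.inl w) 0) := isOpen_generateFrom_of_mem ⟨_, _, rfl⟩
    obtain ⟨A, hA, hwA, hsub⟩ := hb.exists_subset_of_mem_open (mem_B_self _ _) hop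
    obtain ⟨z, k, rfl⟩ := h hA
    have h2 : idx z ≤ idx (Sum.inl w) := hwA.1
    have h3 : idx (Sum.inl w) ≤ idx z := (hsub (mem_B_self z k)).1
    have h4 : z = Sum.inl w := idx_injective (le_antisymm h2 h3)
    subst h4
    exact ⟨k, hA⟩
  choose k hk using h1
  -- pigeonhole
  let f : W → Σ m : ℕ, (Fin m → Bool) := fun w => ⟨k w, fun i => pos (Sum.inl w) i⟩
  have hunc : Uncountable W := by
    rw [← Cardinal.aleph0_lt_mk_iff, Cardinal.mk_toType, card_omega]
    exact aleph0_lt_aleph_one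
  obtain ⟨⟨m, s⟩, hs⟩ : ∃ p, ¬ (f ⁻¹' {p}).Countable := by
    by_contra hc
    push Not at hc
    have : (univ : Set W) = ⋃ p, f ⁻¹' {p} := by
      ext w; simp
    exact not_countable_univ (this ▸ countable_iUnion hc)
  set S : Set W := f ⁻¹' {⟨m, s⟩} with hS
  have hSk : ∀ w ∈ S, k w = m := by
    intro w hw
    have : f w = ⟨m, s⟩ := hw
    exact congrArg Sigma.fst this
  have hSpos : ∀ w ∈ S, ∀ w' ∈ S, ∀ i < m, pos (Sum.inl w) i = pos (Sum.inl w') i := by
    intro w hw w' hw' i hi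
    have h1 : f w = f w' := (show f w = ⟨m, s⟩ from hw).trans (show f w' = ⟨m, s⟩ from hw').symm
    have h2 := hSk w hw
    have h3 : ∀ (a b : Σ m : ℕ, (Fin m → Bool)), a = b → ∀ i (hi : i < a.1) (hi' : i < b.1),
        a.2 ⟨i, hi⟩ = b.2 ⟨i, hi'⟩ := by
      rintro a b rfl i hi hi'; rfl
    exact h3 _ _ h1 i (by show i < k w; omega) (by show i < k w'; rw [hSk w' hw']; exact hi)
  have hSne : S.Nonempty := by
    by_contra hc
    rw [not_nonempty_iff_eq_empty] at hc
    exact hs (hc ▸ countable_empty)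
  obtain ⟨w0, hw0⟩ := hSne
  obtain ⟨n, hn⟩ := exists_tail (pos (Sum.inl w0)) m
  -- a member of the base below all the forced members with index in S
  have hop : IsOpen (B (Sum.inr n) m) := isOpen_generateFrom_of_mem ⟨_, _, rfl⟩
  obtain ⟨A, hA, hnA, hsub⟩ := hb.exists_subset_of_mem_open (mem_B_self _ _) hop
  have hbelow : ∀ w ∈ S, A ⊂ B (Sum.inl w) (k w) := by
    intro w hw
    have hmem : (Sum.inr n : X) ∈ B (Sum.inl w) (k w) := by
      refine ⟨((idx_inl_lt w).trans_le le_self_add).le, ?_⟩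
      rw [hSk w hw]
      intro i hi
      exact (hn i hi).trans (hSpos w0 hw0 w hw i hi)
    have h2 : A ⊆ B (Sum.inl w) (k w) := hsub.trans (B_subset hmem (hSk w hw).le)
    refine ⟨h2, fun hc => ?_⟩
    have h3 := hsub (hc (mem_B_self (Sum.inl w) (k w)))
    have h4 : idx (Sum.inr n) ≤ idx (Sum.inl w) := h3.1
    exact absurd ((idx_inl_lt w).trans_le (le_self_add.trans h4)) (lt_irrefl _)
  obtain ⟨α, hα, hAα⟩ : ∃ α < rank 𝒜, A ∈ layer 𝒜 α := by
    have h5 := rank_spec hN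
    rw [h5] at hA
    exact hA
  refine lt_of_le_of_lt ?_ hα
  -- injection of S into α
  have h6 : ∀ w : S, ∃ j < α, B (Sum.inl w.1) (k w.1) ∈ layer 𝒜 j := fun w =>
    layer_superset hAα (hk w.1) (hbelow w.1 w.2)
  choose j hj1 hj2 using h6
  have hne : ∀ w w' : S, w.1 < w'.1 → j w ≠ j w' := by
    intro w w' hlt
    have hss : B (Sum.inl w'.1) (k w'.1) ⊂ B (Sum.inl w.1) (k w.1) := by
      have hidx : idx (Sum.inl w.1) < idx (Sum.inl w'.1) :=
        (typein_lt_typein (α := W) (· < ·)).mpr hlt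
      have hmem : (Sum.inl w'.1 : X) ∈ B (Sum.inl w.1) (k w.1) := by
        refine ⟨hidx.le, ?_⟩
        rw [hSk w.1 w.2]
        intro i hi
        exact hSpos _ w'.2 _ w.2 i hi
      refine ⟨B_subset hmem (by rw [hSk w.1 w.2, hSk w'.1 w'.2]), fun hc => ?_⟩
      exact absurd (hc (mem_B_self _ _)).1 (not_le.mpr hidx)
    obtain ⟨j', hj', hj''⟩ := layer_superset (hj2 w') (hk w.1) hss
    have := layer_unique hj'' (hj2 w)
    rw [← this]
    exact hj'.ne
  have hinj : Function.Injective (fun w : S => (⟨j w, hj1 w⟩ : Iio α)) := by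
    intro w w' hww
    have h7 : j w = j w' := congrArg Subtype.val hww
    by_contra hc
    have hc' : w.1 ≠ w'.1 := fun h => hc (Subtype.ext h)
    rcases hc'.lt_or_gt with h8 | h8
    · exact hne w w' h8 h7
    · exact hne w' w h8 h7.symm
  have hinj' := Function.Injective.comp hinj (Equiv.ulift.{1, 0} (α := S)).injective
  have hcard := Cardinal.mk_le_of_injective hinj'
  rw [Cardinal.mk_Iio_ordinal, Cardinal.mk_uLift, Cardinal.lift_le] at hcard
  have hSc : ℵ₁ ≤ #S := by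
    by_contra hc
    exact hs ((countable_iff_lt_aleph_one S).mpr (not_le.mp hc))
  have h9 : ℵ₁ ≤ α.card := hSc.trans hcard
  rw [← ord_le, ord_aleph] at h9
  exact h9

/-- There are a Hausdorff space and a Noetherian base of it whose rank is not a cardinal, such
that each Noetherian base contained in it has rank larger than the cardinality of its rank. -/
theorem result : ∃ (X : Type) (_ : TopologicalSpace X) (𝒜 : Set (Set X)), T2Space X ∧
    NoetherianBase 𝒜 ∧ (¬ ∃ c : Cardinal.{0}, c.ord = rank 𝒜) ∧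
    ∀ 𝒞 : Set (Set X), 𝒞 ⊆ 𝒜 → NoetherianBase 𝒞 → (rank 𝒜).card.ord < rank 𝒞 := by
  letI := top
  have hN : Noetherian Base := noetherian_of_subset Subset.rfl ⟨B (Sum.inr 0) 0, _, _, rfl⟩
  have h1 : (rank Base).card ≤ ℵ₁ := (card_rank_le hN).trans base_card
  have h2 : (rank Base).card.ord ≤ ω₁ := by
    rw [← ord_aleph]
    exact ord_le_ord.mpr h1
  have h3 : ω₁ < rank Base := rank_lower Subset.rfl base_isBasis hN
  refine ⟨X, top, Base, t2, ⟨base_isBasis, hN⟩, ?_, ?_⟩
  · rintro ⟨c, hc⟩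
    rw [← hc, card_ord, hc] at h2
    exact absurd h3 (not_lt.mpr h2)
  · rintro 𝒞 h𝒞 ⟨hb, hN'⟩
    exact h2.trans_lt (rank_lower h𝒞 hb hN')

end Pool.Agent.Results.MP_5675d3_gt.NoLoweringRank
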